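import Pool.Agent.H777R3.GrLie

/-!
# The free Lie ring on an abelian group and quadratic presentations
-/

set_option autoImplicit false

namespace Pool.Agent.H777R3.FreeLie

open DirectSum
open scoped commutatorElement
open Pool.Agent.H777R3.GrLie

universe u v

section free
variable (V : Type u) [AddCommGroup V]

/-- The elements `[v + w] - [v] - [w]` of the free Lie ring on the set `V`. -/
def linRel : Set (FreeLieAlgebra ℤ V) :=
  {x | ∃ v w : V, x = FreeLieAlgebra.of ℤ (v + w) - FreeLieAlgebra.of ℤ v - FreeLieAlgebra.of ℤ w}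

/-- The Lie ideal generated by the elements `[v + w] - [v] - [w]`. -/
noncomputable def linIdeal : LieIdeal ℤ (FreeLieAlgebra ℤ V) :=
  LieSubmodule.lieSpan ℤ (FreeLieAlgebra ℤ V) (linRel V)

/-- The free Lie ring `L[V]` on the abelian group `V` placed in degree one: the free Lie ring on
the set `V` modulo the Lie ideal generated by all `[v + w] - [v] - [w]`. -/
def FreeLieRing : Type u := FreeLieAlgebra ℤ V ⧸ linIdeal V

noncomputable instance freeLieRing : LieRing (FreeLieRing V) :=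
  LieSubmodule.Quotient.lieQuotientLieRing (linIdeal V)

variable {V}

/-- The class in `L[V]` of an element of the free Lie ring on the set `V`. -/
noncomputable def mkF (x : FreeLieAlgebra ℤ V) : FreeLieRing V := LieSubmodule.Quotient.mk x

lemma mkF_surj (x : FreeLieRing V) : ∃ y, mkF y = x :=
  LieSubmodule.Quotient.surjective_mk' (linIdeal V) x

lemma mkF_add (x y : FreeLieAlgebra ℤ V) : mkF (x + y) = mkF x + mkF y := rfl
lemma mkF_neg (x : FreeLieAlgebra ℤ V) : mkF (-x) = -mkF x := rfl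
lemma mkF_sub (x y : FreeLieAlgebra ℤ V) : mkF (x - y) = mkF x - mkF y := rfl
lemma mkF_lie (x y : FreeLieAlgebra ℤ V) : mkF ⁅x, y⁆ = ⁅mkF x, mkF y⁆ := rfl
lemma mkF_eq_zero (x : FreeLieAlgebra ℤ V) : mkF x = 0 ↔ x ∈ linIdeal V :=
  LieSubmodule.Quotient.mk_eq_zero'

lemma inc_add (v w : V) : mkF (FreeLieAlgebra.of ℤ (v + w)) =
    mkF (FreeLieAlgebra.of ℤ v) + mkF (FreeLieAlgebra.of ℤ w) := by
  have h : mkF (FreeLieAlgebra.of ℤ (v + w) - FreeLieAlgebra.of ℤ v - FreeLieAlgebra.of ℤ w) = 0 := by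
    rw [mkF_eq_zero]
    exact LieSubmodule.subset_lieSpan ⟨v, w, rfl⟩
  rw [mkF_sub, mkF_sub, sub_sub, sub_eq_zero] at h
  exact h

/-- The inclusion of the degree-one part. -/
noncomputable def inc : V →+ FreeLieRing V :=
  AddMonoidHom.mk' (fun v => mkF (FreeLieAlgebra.of ℤ v)) inc_add

lemma inc_eq (v : V) : inc v = mkF (FreeLieAlgebra.of ℤ v) := rfl

variable {L : Type v} [LieRing L]

lemma lift_aux (f : V →+ L) (x : FreeLieAlgebra ℤ V) (hx : x ∈ linIdeal V) :
    FreeLieAlgebra.lift ℤ (f : V → L) x = 0 := by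
  have h : linIdeal V ≤ (FreeLieAlgebra.lift ℤ (f : V → L)).ker := by
    refine LieSubmodule.lieSpan_le.2 ?_
    rintro _ ⟨v, w, rfl⟩
    show _ ∈ (FreeLieAlgebra.lift ℤ (f : V → L)).ker
    rw [LieHom.mem_ker, map_sub, map_sub, FreeLieAlgebra.lift_of_apply,
      FreeLieAlgebra.lift_of_apply, FreeLieAlgebra.lift_of_apply, map_add]
    abel
  exact LieHom.mem_ker.1 (h hx)

/-- The universal property of the free Lie ring on an abelian group. -/
theorem exists_lift (f : V →+ L) : ∃ F : FreeLieRing V →ₗ⁅ℤ⁆ L, ∀ v, F (inc v) = f v := by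
  let F0 : FreeLieRing V →+ L := QuotientAddGroup.lift (linIdeal V).toSubmodule.toAddSubgroup
    (FreeLieAlgebra.lift ℤ (f : V → L)).toLinearMap.toAddMonoidHom (fun x hx => lift_aux f x hx)
  have hF0 : ∀ x, F0 (mkF x) = FreeLieAlgebra.lift ℤ (f : V → L) x := fun x => rfl
  refine ⟨{ toFun := F0, map_add' := F0.map_add, map_smul' := fun m x => map_zsmul F0 m x,
            map_lie' := ?_ }, ?_⟩
  · intro x y
    obtain ⟨x, rfl⟩ := mkF_surj x
    obtain ⟨y, rfl⟩ := mkF_surj y
    show F0 ⁅mkF x, mkF y⁆ = ⁅F0 (mkF x), F0 (mkF y)⁆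
    rw [← mkF_lie, hF0, hF0, hF0, LieHom.map_lie]
  · intro v
    show F0 (mkF (FreeLieAlgebra.of ℤ v)) = f v
    rw [hF0, FreeLieAlgebra.lift_of_apply]

lemma hom_ext {F F' : FreeLieRing V →ₗ⁅ℤ⁆ L} (h : ∀ v, F (inc v) = F' (inc v)) : F = F' := by
  let M : FreeLieAlgebra ℤ V →ₗ⁅ℤ⁆ FreeLieRing V :=
    { toFun := mkF, map_add' := mkF_add, map_smul' := fun m x => rfl, map_lie' := fun {x y} => rfl }
  have h1 : F.comp M = F'.comp M := FreeLieAlgebra.hom_ext (fun v => h v)
  ext x
  obtain ⟨y, rfl⟩ := mkF_surj x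
  exact LieHom.congr_fun h1 y

variable (V) in
/-- The degree-two part `L_2[V]`: the additive subgroup generated by the brackets `[v, w]` of
elements of degree one. -/
noncomputable def degTwo : AddSubgroup (FreeLieRing V) :=
  AddSubgroup.closure {x | ∃ v w : V, x = ⁅inc v, inc w⁆}

/-- The Lie ideal of `L[V]` generated by a set. -/
noncomputable def idealGen (S : Set (FreeLieRing V)) : LieIdeal ℤ (FreeLieRing V) :=
  LieSubmodule.lieSpan ℤ (FreeLieRing V) S

/-- The quotient of `L[V]` by the Lie ideal generated by `S`. -/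
def Pres (S : Set (FreeLieRing V)) : Type u := FreeLieRing V ⧸ idealGen S

noncomputable instance presLieRing (S : Set (FreeLieRing V)) : LieRing (Pres S) :=
  LieSubmodule.Quotient.lieQuotientLieRing (idealGen S)

/-- The class of an element of `L[V]` in the quotient. -/
noncomputable def mkP (S : Set (FreeLieRing V)) (x : FreeLieRing V) : Pres S := LieSubmodule.Quotient.mk x

end free

section natural
variable (G : Type u) [Group G]

/-- `E_0^*(G)` is a free Lie algebra modulo quadratic relations: there are a set `S` of elements of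
`L_2[V]`, where `V = G / [G, G]` is the degree-one part of `E_0^*(G)`, and an isomorphism of Lie
rings from `L[V] / ⟨S⟩` onto `E_0^*(G)` that maps the degree-one part into the degree-one part
(both sides are generated by their parts of degree one, so this is an isomorphism of graded Lie
rings). -/
def FreeModQuadratic : Prop :=
  ∃ S : Set (FreeLieRing (Gr G 0)), S ⊆ degTwo (Gr G 0) ∧
    ∃ e : Pres S ≃ₗ⁅ℤ⁆ E0 G, ∀ v, ∃ w, e (mkP S (inc v)) = hom 0 w

variable {G}

lemma bracket_cls_zero {k : ℕ} {p q : G} (hp : p ∈ lcs G k) (hq : q ∈ lcs G 0) :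
    ⁅hom k (cls k p hp), hom 0 (cls 0 q hq)⁆ = hom (k + 1) (cls (k + 1) ⁅p, q⁆ (comm_mem_succ hp)) := by
  rw [bracket_cls]

lemma comp_hom_ne {k l : ℕ} (h : l ≠ k) (x : Gr G k) : comp l (hom k x) = 0 :=
  DirectSum.of_eq_of_ne k l x h

lemma comp_zero_bracket (x y : E0 G) : comp 0 ⁅x, y⁆ = 0 := by
  rw [bracket_def]
  induction x using E0_induction with
  | h0 => simp
  | h2 x x' hx hx' => rw [map_add, AddMonoidHom.add_apply, map_add, hx, hx', add_zero]
  | h1 i a ha =>
    induction y using E0_induction with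
    | h0 => simp
    | h2 x x' hx hx' => rw [map_add, map_add, hx, hx', add_zero]
    | h1 j b hb => rw [brk_hom, comp_hom_ne (by omega)]

/-- What a graded isomorphism gives: a Lie homomorphism `f` on `L[V]` with kernel the ideal
generated by `S` which is given on `V` by a surjective additive map. -/
theorem FreeModQuadratic.elim (h : FreeModQuadratic G) :
    ∃ S : Set (FreeLieRing (Gr G 0)), S ⊆ degTwo (Gr G 0) ∧
      ∃ f : FreeLieRing (Gr G 0) →ₗ⁅ℤ⁆ E0 G, (∀ x, f x = 0 ↔ x ∈ idealGen S) ∧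
        ∃ σ : Gr G 0 →+ Gr G 0, (∀ v, f (inc v) = hom 0 (σ v)) ∧ Function.Surjective σ := by
  obtain ⟨S, hS, e, he⟩ := h
  let f : FreeLieRing (Gr G 0) →ₗ⁅ℤ⁆ E0 G :=
    { toFun := fun x => e (mkP S x)
      map_add' := fun x y => map_add e (mkP S x) (mkP S y)
      map_smul' := fun m x => by
        have h1 : mkP S (m • x) = m • mkP S x := by
          let M : FreeLieRing (Gr G 0) →+ Pres S :=
            { toFun := mkP S, map_zero' := rfl, map_add' := fun _ _ => rfl }
          exact map_zsmul M m x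
        show e (mkP S (m • x)) = _
        rw [h1]
        exact map_zsmul e m (mkP S x)
      map_lie' := fun {x y} => LieEquiv.map_lie e (mkP S x) (mkP S y) }
  have hf : ∀ x, f x = e (mkP S x) := fun _ => rfl
  refine ⟨S, hS, f, ?_, ?_⟩
  · intro x
    rw [hf, ← map_zero e, EmbeddingLike.apply_eq_iff_eq]
    exact LieSubmodule.Quotient.mk_eq_zero'
  · let σ : Gr G 0 →+ Gr G 0 := (comp 0).comp (f.toLinearMap.toAddMonoidHom.comp inc)
    have hσ : ∀ v, σ v = comp 0 (f (inc v)) := fun _ => rfl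
    have h1 : ∀ v, f (inc v) = hom 0 (σ v) := by
      intro v
      obtain ⟨w, hw⟩ := he v
      rw [hσ, hf, hw, comp_hom_same]
    refine ⟨σ, h1, ?_⟩
    -- the Lie subring of all elements whose image has its degree-one part in the range of `σ`
    let K : LieSubalgebra ℤ (FreeLieRing (Gr G 0)) :=
      { carrier := {x | comp 0 (f x) ∈ σ.range}
        add_mem' := by
          intro a b ha hb
          show comp 0 (f (a + b)) ∈ σ.range
          rw [map_add, map_add]
          exact add_mem ha hb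
        zero_mem' := by
          show comp 0 (f 0) ∈ σ.range
          rw [map_zero, map_zero]
          exact zero_mem _
        smul_mem' := by
          intro m a ha
          show comp 0 (f (m • a)) ∈ σ.range
          have h2 : f (m • a) = m • f a := map_zsmul f.toLinearMap.toAddMonoidHom m a
          rw [h2, map_zsmul]
          exact AddSubgroup.zsmul_mem _ ha m
        lie_mem' := by
          intro a b _ _
          show comp 0 (f ⁅a, b⁆) ∈ σ.range
          rw [LieHom.map_lie, comp_zero_bracket]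
          exact zero_mem _ }
    have hinc : ∀ v, inc v ∈ K := by
      intro v
      show comp 0 (f (inc v)) ∈ σ.range
      rw [h1, comp_hom_same]
      exact ⟨v, rfl⟩
    obtain ⟨F, hF⟩ := exists_lift (L := K) (AddMonoidHom.mk' (fun v : Gr G 0 => (⟨inc v, hinc v⟩ : K))
      (fun a b => Subtype.ext (map_add inc a b)))
    have hid : K.incl.comp F = (LieHom.id : FreeLieRing (Gr G 0) →ₗ⁅ℤ⁆ FreeLieRing (Gr G 0)) := by
      apply hom_ext
      intro v
      show ((F (inc v) : K) : FreeLieRing (Gr G 0)) = inc v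
      rw [hF]
      rfl
    have hK : ∀ x, x ∈ K := by
      intro x
      have h2 := LieHom.congr_fun hid x
      have h3 : ((F x : K) : FreeLieRing (Gr G 0)) = x := h2
      rw [← h3]
      exact (F x).2
    intro w
    obtain ⟨y, hy⟩ := e.surjective (hom 0 w)
    obtain ⟨x, rfl⟩ := LieSubmodule.Quotient.surjective_mk' (idealGen S) y
    have h4 : f x = hom 0 w := hy
    obtain ⟨v, hv⟩ := hK x
    refine ⟨v, ?_⟩
    rw [hv, h4, comp_hom_same]

end natural

section criterion
variable {G : Type u} [Group G]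

lemma add_fun_one {a : G → ℤ} (ha : ∀ g h, a (g * h) = a g + a h) : a 1 = 0 := by
  have := ha 1 1; rw [mul_one] at this; omega

lemma add_fun_inv {a : G → ℤ} (ha : ∀ g h, a (g * h) = a g + a h) (g : G) : a g⁻¹ = - a g := by
  have := ha g g⁻¹; rw [mul_inv_cancel, add_fun_one ha] at this; omega

lemma add_fun_comm {a : G → ℤ} (ha : ∀ g h, a (g * h) = a g + a h) (g h : G) : a ⁅g, h⁆ = 0 := by
  rw [commutatorElement_def, ha, ha, ha, add_fun_inv ha, add_fun_inv ha]; ring

lemma add_fun_lcs {a : G → ℤ} (ha : ∀ g h, a (g * h) = a g + a h) {g : G} (hg : g ∈ lcs G 1) :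
    a g = 0 := by
  have hg' : g ∈ Subgroup.closure {x : G | ∃ p ∈ lcs G 0, ∃ q ∈ (⊤ : Subgroup G), ⁅p, q⁆ = x} := hg
  induction hg' using Subgroup.closure_induction with
  | mem x hx => obtain ⟨p, -, q, -, rfl⟩ := hx; exact add_fun_comm ha p q
  | one => exact add_fun_one ha
  | mul x y h1 h2 hx hy => rw [ha, hx h1, hy h2]; rfl
  | inv x h1 hx => rw [add_fun_inv ha, hx h1]; rfl

/-- The additive map on `V = G / Γ_2 G` given by an additive function on the group. -/
noncomputable def addV (a : G → ℤ) (ha : ∀ g h, a (g * h) = a g + a h) : Gr G 0 →+ ℤ :=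
  liftGr (fun g => a g.1) (fun g h => ha g.1 h.1) (fun _ h => add_fun_lcs ha h)

lemma addV_cls (a : G → ℤ) (ha : ∀ g h, a (g * h) = a g + a h) (g : G) (hg : g ∈ lcs G 0) :
    addV a ha (cls 0 g hg) = a g := rfl

/-- A quadratic function on the group: `z (g h) = z g + z h + B g h` with `B` biadditive. -/
structure Quad (z : G → ℤ) (B : G → G → ℤ) : Prop where
  add : ∀ g h, z (g * h) = z g + z h + B g h
  left : ∀ g g' h, B (g * g') h = B g h + B g' h
  right : ∀ g h h', B g (h * h') = B g h + B g h'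

lemma Quad.left_zero {z : G → ℤ} {B : G → G → ℤ} (q : Quad z B) {g : G} (hg : g ∈ lcs G 1) (h : G) :
    B g h = 0 := add_fun_lcs (a := fun g => B g h) (fun g g' => q.left g g' h) hg

lemma Quad.right_zero {z : G → ℤ} {B : G → G → ℤ} (q : Quad z B) {g : G} (hg : g ∈ lcs G 1)
    (h : G) : B h g = 0 := add_fun_lcs (a := fun g => B h g) (fun g g' => q.right h g g') hg

lemma Quad.one {z : G → ℤ} {B : G → G → ℤ} (q : Quad z B) : z 1 = 0 := by
  have h := q.add 1 1
  rw [mul_one, q.left_zero (one_mem _)] at h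
  omega

lemma Quad.comm {z : G → ℤ} {B : G → G → ℤ} (q : Quad z B) (g h : G) :
    z ⁅g, h⁆ = B g h - B h g := by
  have h1 : ⁅g, h⁆ * (h * g) = g * h := by rw [commutatorElement_def]; group
  have hm : ⁅g, h⁆ ∈ lcs G 1 := comm_mem_succ (k := 0) (Subgroup.mem_top g)
  have h2 := q.add ⁅g, h⁆ (h * g)
  rw [h1, q.left_zero hm, q.add g h, q.add h g] at h2
  omega

lemma Quad.add_one {z : G → ℤ} {B : G → G → ℤ} (q : Quad z B) {g : G} (hg : g ∈ lcs G 1) (h : G) :
    z (g * h) = z g + z h := by rw [q.add, q.left_zero hg]; ring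

lemma Quad.lcs_two {z : G → ℤ} {B : G → G → ℤ} (q : Quad z B) {g : G} (hg : g ∈ lcs G 2) :
    z g = 0 := by
  have hg' : g ∈ Subgroup.closure {x : G | ∃ p ∈ lcs G 1, ∃ q ∈ (⊤ : Subgroup G), ⁅p, q⁆ = x} := hg
  have : g ∈ lcs G 2 ∧ z g = 0 := by
    induction hg' using Subgroup.closure_induction with
    | mem x hx =>
      obtain ⟨p, hp, r, -, rfl⟩ := hx
      refine ⟨comm_mem_succ hp, ?_⟩
      rw [q.comm, q.left_zero hp, q.right_zero hp]; rfl
    | one => exact ⟨one_mem _, q.one⟩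
    | mul x y _ _ hx hy =>
      obtain ⟨h1, h2⟩ := hx (by assumption)
      obtain ⟨h3, h4⟩ := hy (by assumption)
      exact ⟨mul_mem h1 h3, by rw [q.add_one (lcs_anti (by omega) h1), h2, h4]; rfl⟩
    | inv x _ hx =>
      obtain ⟨h1, h2⟩ := hx (by assumption)
      refine ⟨inv_mem h1, ?_⟩
      have h3 := q.add_one (lcs_anti (show 1 ≤ 2 by omega) h1) x⁻¹
      rw [mul_inv_cancel, q.one, h2] at h3
      omega
  exact this.2

/-- The additive map on `Γ_2 / Γ_3` given by a quadratic function. -/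
noncomputable def quadV {z : G → ℤ} {B : G → G → ℤ} (q : Quad z B) : Gr G 1 →+ ℤ :=
  liftGr (fun g => z g.1) (fun g h => q.add_one g.2 h.1) (fun _ h => q.lcs_two h)

lemma quadV_cls {z : G → ℤ} {B : G → G → ℤ} (q : Quad z B) (g : G) (hg : g ∈ lcs G 1) :
    quadV q (cls 1 g hg) = z g := rfl

attribute [local instance] LieRing.ofAssociativeRing

/-- The matrix `x E_{12} + y E_{23} + t E_{34}`. -/
def mat (x y t : ℤ) : Matrix (Fin 4) (Fin 4) ℤ := !![0, x, 0, 0; 0, 0, y, 0; 0, 0, 0, t; 0, 0, 0, 0]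

/-- The matrix `x E_{13} + y E_{24}`. -/
def mat2 (x y : ℤ) : Matrix (Fin 4) (Fin 4) ℤ := !![0, 0, x, 0; 0, 0, 0, y; 0, 0, 0, 0; 0, 0, 0, 0]

lemma mat_lie (x y t x' y' t' : ℤ) :
    ⁅mat x y t, mat x' y' t'⁆ = mat2 (x * y' - x' * y) (y * t' - y' * t) := by
  rw [LieRing.of_associative_ring_bracket]
  unfold mat mat2
  ext i j
  fin_cases i <;> fin_cases j <;> simp

lemma mat_add (x y t x' y' t' : ℤ) :
    mat (x + x') (y + y') (t + t') = mat x y t + mat x' y' t' := by
  unfold mat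
  ext i j
  fin_cases i <;> fin_cases j <;> simp

lemma mat2_add (x y x' y' : ℤ) :
    mat2 (x + x') (y + y') = mat2 x y + mat2 x' y' := by
  unfold mat2
  ext i j
  fin_cases i <;> fin_cases j <;> simp

/-- **Criterion.** Suppose `a, b, c` are additive functions on `G` such that both cup products
`a ∪ b` and `b ∪ c` vanish (in the strong form of quadratic functions), and that there are elements
`A, B, C` dual to them with `[[A, B], C] = 1`. Then `E_0^*(G)` is not a free Lie algebra modulo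
quadratic relations. -/
theorem not_quadratic {a b c : G → ℤ} (ha : ∀ g h, a (g * h) = a g + a h)
    (hb : ∀ g h, b (g * h) = b g + b h) (hc : ∀ g h, c (g * h) = c g + c h)
    {z w : G → ℤ} {Bz Bw : G → G → ℤ} (qz : Quad z Bz) (qw : Quad w Bw)
    (hz : ∀ g h, Bz g h - Bz h g = a g * b h - a h * b g)
    (hw : ∀ g h, Bw g h - Bw h g = b g * c h - b h * c g)
    {x y t : G} (hx : a x = 1 ∧ b x = 0 ∧ c x = 0) (hy : a y = 0 ∧ b y = 1 ∧ c y = 0)
    (ht : a t = 0 ∧ b t = 0 ∧ c t = 1) (hxyt : ⁅⁅x, y⁆, t⁆ = 1) : ¬ FreeModQuadratic G := by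
  intro hF
  obtain ⟨S, hS, f, hker, σ, hσ, hsurj⟩ := hF.elim
  -- the test homomorphism
  obtain ⟨ψ, hψ⟩ : ∃ ψ : Gr G 0 →+ Matrix (Fin 4) (Fin 4) ℤ,
      ∀ g hg, ψ (cls 0 g hg) = mat (a g) (b g) (c g) :=
    ⟨AddMonoidHom.mk' (fun v => mat (addV a ha v) (addV b hb v) (addV c hc v)) (by
      intro v v'
      rw [map_add, map_add, map_add]
      exact mat_add _ _ _ _ _ _), fun g hg => rfl⟩
  obtain ⟨Λ, hΛ⟩ : ∃ Λ : Gr G 1 →+ Matrix (Fin 4) (Fin 4) ℤ,
      ∀ g hg, Λ (cls 1 g hg) = mat2 (z g) (w g) :=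
    ⟨AddMonoidHom.mk' (fun v => mat2 (quadV qz v) (quadV qw v)) (by
      intro v v'
      rw [map_add, map_add]
      exact mat2_add _ _ _ _), fun g hg => rfl⟩
  obtain ⟨Ψ, hΨ⟩ : ∃ Ψ : FreeLieRing (Gr G 0) →ₗ⁅ℤ⁆ Matrix (Fin 4) (Fin 4) ℤ,
      ∀ v, Ψ (inc v) = ψ (σ v) := exists_lift (ψ.comp σ)
  have e1 : ∀ r ∈ degTwo (Gr G 0), Λ (comp 1 (f r)) = Ψ r := by
    intro r hr
    unfold degTwo at hr
    induction hr using AddSubgroup.closure_induction with
    | mem r hr =>
      obtain ⟨v, v', rfl⟩ := hr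
      obtain ⟨g, hg, h1⟩ := cls_surj (σ v)
      obtain ⟨g', hg', h2⟩ := cls_surj (σ v')
      rw [LieHom.map_lie, hσ, hσ, LieHom.map_lie, hΨ, hΨ, ← h1, ← h2, bracket_cls_zero,
        comp_hom_same, hψ, hψ, hΛ, mat_lie, qz.comm, qw.comm, hz, hw]
    | zero => simp
    | add r r' _ _ h1 h2 => simp only [map_add, h1, h2]
    | neg r _ h1 => simp only [map_neg, h1]
  have e2 : idealGen S ≤ Ψ.ker := by
    refine LieSubmodule.lieSpan_le.2 ?_
    intro r hr
    show r ∈ Ψ.ker
    have h1 : f r = 0 := (hker r).2 (LieSubmodule.subset_lieSpan hr)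
    rw [LieHom.mem_ker, ← e1 r (hS hr), h1, map_zero, map_zero]
  have mx : x ∈ lcs G 0 := Subgroup.mem_top x
  have my : y ∈ lcs G 0 := Subgroup.mem_top y
  have mt : t ∈ lcs G 0 := Subgroup.mem_top t
  obtain ⟨vx, hvx⟩ := hsurj (cls 0 x mx)
  obtain ⟨vy, hvy⟩ := hsurj (cls 0 y my)
  obtain ⟨vt, hvt⟩ := hsurj (cls 0 t mt)
  have e3 : ⁅⁅inc vx, inc vy⁆, inc vt⁆ ∈ idealGen S := by
    rw [← hker, LieHom.map_lie, LieHom.map_lie, hσ, hσ, hσ, hvx, hvy, hvt,
      bracket_cls_zero, bracket_cls_zero, hom_cls_congr rfl _ (one_mem _) hxyt, cls_one, map_zero]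
  have e4 := LieHom.mem_ker.1 (e2 e3)
  rw [LieHom.map_lie, LieHom.map_lie, hΨ, hΨ, hΨ, hvx, hvy, hvt, hψ, hψ, hψ, mat_lie, hx.1, hx.2.1,
    hx.2.2, hy.1, hy.2.1, hy.2.2, ht.1, ht.2.1, ht.2.2, LieRing.of_associative_ring_bracket] at e4
  have e6 := congrFun (congrFun e4 0) 3
  simp [mat, mat2] at e6

end criterion

end Pool.Agent.H777R3.FreeLie
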