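import Mathlib

/-!
# The graded Lie ring of the lower central series of a group

For a group `G` with lower central series `Γ_1 G = G`, `Γ_{k+1} G = [Γ_k G, G]` we construct the
graded Lie ring `E_0^*(G) = ⨁_{k ≥ 1} Γ_k G / Γ_{k+1} G`.
-/

set_option autoImplicit false

namespace Pool.Agent.H777R3.GrLie

open DirectSum
open scoped commutatorElement

universe u

section basics
variable (G : Type u) [Group G]

/-- `lcs G k` is the term `Γ_{k+1} G` of the lower central series (Mathlib numbers the whole group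
by `0`). -/
abbrev lcs (k : ℕ) : Subgroup G := (⊤ : Subgroup G).lowerCentralSeries k

variable {G}

lemma comm_mem_succ {k : ℕ} {a b : G} (ha : a ∈ lcs G k) : ⁅a, b⁆ ∈ lcs G (k + 1) :=
  Subgroup.commutator_mem_commutator ha (Subgroup.mem_top b)

lemma comm_mem_succ' {k : ℕ} {a b : G} (hb : b ∈ lcs G k) : ⁅a, b⁆ ∈ lcs G (k + 1) := by
  rw [← commutatorElement_inv]
  exact inv_mem (comm_mem_succ hb)

lemma lcs_anti {j k : ℕ} (h : j ≤ k) : lcs G k ≤ lcs G j :=
  Subgroup.lowerCentralSeries_antitone _ h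

instance lcs_normal (k : ℕ) : (lcs G k).Normal := by
  unfold lcs; infer_instance

/-- The class of `a` in the quotient by a term of the lower central series commutes with everything
if `a` lies in the previous term. -/
lemma mk_commute {k : ℕ} {a : G} (ha : a ∈ lcs G k) (b : G) :
    Commute (QuotientGroup.mk a : G ⧸ lcs G (k + 1)) (QuotientGroup.mk b) := by
  rw [← commutatorElement_eq_one_iff_commute]
  have h : ⁅(QuotientGroup.mk a : G ⧸ lcs G (k + 1)), QuotientGroup.mk b⁆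
      = QuotientGroup.mk ⁅a, b⁆ := (map_commutatorElement (QuotientGroup.mk' (lcs G (k+1))) a b).symm
  rw [h, QuotientGroup.eq_one_iff]
  exact comm_mem_succ ha

lemma mk_commute_of {k : ℕ} {a b : G} (h : ⁅a, b⁆ ∈ lcs G k) :
    Commute (QuotientGroup.mk a : G ⧸ lcs G k) (QuotientGroup.mk b) := by
  rw [← commutatorElement_eq_one_iff_commute]
  have h' : ⁅(QuotientGroup.mk a : G ⧸ lcs G k), QuotientGroup.mk b⁆
      = QuotientGroup.mk ⁅a, b⁆ := (map_commutatorElement (QuotientGroup.mk' (lcs G k)) a b).symm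
  rw [h', QuotientGroup.eq_one_iff]
  exact h

/-- `[a, b c] ≡ [a, b] [a, c]` -/
lemma comm_mul_right_mod {m : ℕ} {a b c : G} (h : ⁅a, c⁆ ∈ lcs G m) :
    (QuotientGroup.mk ⁅a, b * c⁆ : G ⧸ lcs G (m + 1)) =
      QuotientGroup.mk ⁅a, b⁆ * QuotientGroup.mk ⁅a, c⁆ := by
  have h1 : ⁅a, b * c⁆ = ⁅a, b⁆ * (b * ⁅a, c⁆ * b⁻¹) := by
    simp only [commutatorElement_def]; group
  have h2 : (QuotientGroup.mk (b * ⁅a, c⁆ * b⁻¹) : G ⧸ lcs G (m + 1)) =
      QuotientGroup.mk ⁅a, c⁆ := by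
    have h3 := mk_commute h b
    rw [QuotientGroup.mk_mul, QuotientGroup.mk_mul, ← h3.eq, mul_assoc, ← QuotientGroup.mk_mul,
      mul_inv_cancel, QuotientGroup.mk_one, mul_one]
  rw [h1, QuotientGroup.mk_mul, h2]

/-- `[a b, c] ≡ [a, c] [b, c]` -/
lemma comm_mul_left_mod {m : ℕ} {a b c : G} (h : ⁅b, c⁆ ∈ lcs G m) :
    (QuotientGroup.mk ⁅a * b, c⁆ : G ⧸ lcs G (m + 1)) =
      QuotientGroup.mk ⁅a, c⁆ * QuotientGroup.mk ⁅b, c⁆ := by
  have h1 : ⁅a * b, c⁆ = (a * ⁅b, c⁆ * a⁻¹) * ⁅a, c⁆ := by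
    simp only [commutatorElement_def]; group
  have h3 := mk_commute h a
  have h4 := mk_commute h ⁅a, c⁆
  have h2 : (QuotientGroup.mk (a * ⁅b, c⁆ * a⁻¹) : G ⧸ lcs G (m + 1)) =
      QuotientGroup.mk ⁅b, c⁆ := by
    rw [QuotientGroup.mk_mul, QuotientGroup.mk_mul, ← h3.eq, mul_assoc, ← QuotientGroup.mk_mul,
      mul_inv_cancel, QuotientGroup.mk_one, mul_one]
  rw [h1, QuotientGroup.mk_mul, h2, h4.eq]

/-- The standard inclusion `[Γ_i, Γ_j] ≤ Γ_{i+j}` (with the shifted numbering). -/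
lemma comm_lcs_le (j : ℕ) : ∀ i : ℕ, ⁅lcs G i, lcs G j⁆ ≤ lcs G (i + j + 1) := by
  induction j with
  | zero => intro i; exact le_of_eq rfl
  | succ j ih =>
    intro i
    -- three subgroups lemma in the quotient
    have key : ∀ N : Subgroup G, N.Normal → ∀ A B C : Subgroup G,
        ⁅⁅B, C⁆, A⁆ ≤ N → ⁅⁅C, A⁆, B⁆ ≤ N → ⁅⁅A, B⁆, C⁆ ≤ N := by
      intro N hN A B C h1 h2
      have e1 : ⁅⁅B.map (QuotientGroup.mk' N), C.map (QuotientGroup.mk' N)⁆,
          A.map (QuotientGroup.mk' N)⁆ = ⊥ := by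
        rw [← Subgroup.map_commutator, ← Subgroup.map_commutator, Subgroup.map_eq_bot_iff,
          QuotientGroup.ker_mk']
        exact h1
      have e2 : ⁅⁅C.map (QuotientGroup.mk' N), A.map (QuotientGroup.mk' N)⁆,
          B.map (QuotientGroup.mk' N)⁆ = ⊥ := by
        rw [← Subgroup.map_commutator, ← Subgroup.map_commutator, Subgroup.map_eq_bot_iff,
          QuotientGroup.ker_mk']
        exact h2
      have e3 := Subgroup.commutator_commutator_eq_bot_of_rotate e1 e2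
      rw [← Subgroup.map_commutator, ← Subgroup.map_commutator, Subgroup.map_eq_bot_iff,
          QuotientGroup.ker_mk'] at e3
      exact e3
    rw [Subgroup.commutator_comm]
    have h := key (lcs G (i + (j + 1) + 1)) inferInstance (lcs G j) ⊤ (lcs G i) ?_ ?_
    · exact h
    · -- [[⊤, Γ i], Γ j]
      have h1 : ⁅(⊤ : Subgroup G), lcs G i⁆ = lcs G (i + 1) := by
        rw [Subgroup.commutator_comm]; rfl
      rw [h1]
      have h2 := ih (i + 1)
      have h3 : i + 1 + j + 1 = i + (j + 1) + 1 := by omega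
      rwa [h3] at h2
    · -- [[Γ i, Γ j], ⊤]
      exact Subgroup.commutator_mono (ih i) le_rfl

lemma comm_mem {i j : ℕ} {a b : G} (ha : a ∈ lcs G i) (hb : b ∈ lcs G j) :
    ⁅a, b⁆ ∈ lcs G (i + j + 1) := comm_lcs_le j i (Subgroup.commutator_mem_commutator ha hb)

lemma comm_mem_of {i j k : ℕ} {a b : G} (ha : a ∈ lcs G i) (hb : b ∈ lcs G j)
    (h : k ≤ i + j + 1) : ⁅a, b⁆ ∈ lcs G k := lcs_anti h (comm_mem ha hb)

/-- The Hall-Witt identity in the form of the Jacobi identity. -/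
lemma jacobi_mod {i j k : ℕ} {a b c : G} (ha : a ∈ lcs G i) (hb : b ∈ lcs G j)
    (hc : c ∈ lcs G k) :
    (QuotientGroup.mk ⁅a, ⁅b, c⁆⁆ : G ⧸ lcs G (i + j + k + 3)) =
      QuotientGroup.mk ⁅⁅a, b⁆, c⁆ * QuotientGroup.mk ⁅b, ⁅a, c⁆⁆ := by
  set N := lcs G (i + j + k + 3) with hN
  set x := ⁅a, b⁆ with hx
  set y := ⁅a, c⁆ with hy
  set z := ⁅b, c⁆ with hz
  have hxm : x ∈ lcs G (i + j + 1) := comm_mem ha hb
  have hym : y ∈ lcs G (i + k + 1) := comm_mem ha hc
  have hzm : z ∈ lcs G (j + k + 1) := comm_mem hb hc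
  have hby : ⁅b, y⁆ ∈ lcs G (i + j + k + 2) := comm_mem_of hb hym (by omega)
  have hxc : ⁅x, c⁆ ∈ lcs G (i + j + k + 2) := comm_mem_of hxm hc (by omega)
  have hxy : ⁅x, y⁆ ∈ N := comm_mem_of hxm hym (by omega)
  have hxz : ⁅x, z⁆ ∈ N := comm_mem_of hxm hzm (by omega)
  have hyz : ⁅y, z⁆ ∈ N := comm_mem_of hym hzm (by omega)
  -- exact identity in the group
  have e : ⁅a, z⁆ * z = (x * (⁅b, y⁆ * (y * z * y⁻¹)) * x⁻¹) * (⁅x, y⁆ * (y * ⁅x, c⁆ * y⁻¹)) := by
    simp only [hx, hy, hz, commutatorElement_def]; group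
  have cby : ∀ g : G, Commute (QuotientGroup.mk ⁅b, y⁆ : G ⧸ N) (QuotientGroup.mk g) :=
    fun g => mk_commute hby g
  have cxc : ∀ g : G, Commute (QuotientGroup.mk ⁅x, c⁆ : G ⧸ N) (QuotientGroup.mk g) :=
    fun g => mk_commute hxc g
  have cxz : Commute (QuotientGroup.mk x : G ⧸ N) (QuotientGroup.mk z) := mk_commute_of hxz
  have cyz : Commute (QuotientGroup.mk y : G ⧸ N) (QuotientGroup.mk z) := mk_commute_of hyz
  have oxy : (QuotientGroup.mk ⁅x, y⁆ : G ⧸ N) = 1 := by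
    rw [QuotientGroup.eq_one_iff]; exact hxy
  have e' := congrArg (QuotientGroup.mk : G → G ⧸ N) e
  simp only [QuotientGroup.mk_mul, QuotientGroup.mk_inv] at e'
  rw [oxy, one_mul, cyz.eq, mul_inv_cancel_right, ← (cxc y).eq, mul_inv_cancel_right,
    ← mul_assoc (QuotientGroup.mk x : G ⧸ N), ← (cby x).eq, mul_assoc _ (QuotientGroup.mk x : G ⧸ N),
    cxz.eq, ← mul_assoc, mul_inv_cancel_right, mul_assoc, ← (cxc z).eq, ← mul_assoc] at e'
  have e'' := mul_right_cancel e'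
  rw [e'', (cby _).eq]

end basics

section pieces
variable (G : Type u) [Group G]

/-- The quotient group `Γ_{k+1} G / Γ_{k+2} G`. -/
def Quo (k : ℕ) : Type u := ↥(lcs G k) ⧸ (lcs G (k + 1)).subgroupOf (lcs G k)

instance quoGroup (k : ℕ) : Group (Quo G k) :=
  QuotientGroup.Quotient.group ((lcs G (k + 1)).subgroupOf (lcs G k))

/-- The graded piece `Γ_{k+1} G / Γ_{k+2} G`, written additively. -/
def Gr (k : ℕ) : Type u := Additive (Quo G k)

instance grAddGroup (k : ℕ) : AddGroup (Gr G k) := Additive.addGroup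

variable {G}

/-- The class of an element of `Γ_{k+1} G` in `Γ_{k+1} G / Γ_{k+2} G`, multiplicatively. -/
def quo {k : ℕ} (g : ↥(lcs G k)) : Quo G k := QuotientGroup.mk g

/-- The class of an element of `Γ_{k+1} G` in `Γ_{k+1} G / Γ_{k+2} G`. -/
def cls (k : ℕ) (g : G) (hg : g ∈ lcs G k) : Gr G k := Additive.ofMul (quo ⟨g, hg⟩)

lemma cls_surj {k : ℕ} (x : Gr G k) : ∃ g hg, cls k g hg = x := by
  obtain ⟨⟨g, hg⟩, h⟩ := QuotientGroup.mk_surjective (Additive.toMul x : Quo G k)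
  exact ⟨g, hg, congrArg Additive.ofMul h⟩

lemma cls_mul {k : ℕ} {g h : G} (hg : g ∈ lcs G k) (hh : h ∈ lcs G k) :
    cls k (g * h) (mul_mem hg hh) = cls k g hg + cls k h hh := rfl

lemma cls_one {k : ℕ} : cls k (1 : G) (one_mem _) = 0 := rfl

lemma cls_inv {k : ℕ} {g : G} (hg : g ∈ lcs G k) :
    cls k g⁻¹ (inv_mem hg) = - cls k g hg := rfl

lemma cls_eq_zero {k : ℕ} {g : G} (hg : g ∈ lcs G k) :
    cls k g hg = 0 ↔ g ∈ lcs G (k + 1) := by
  have h1 : cls k g hg = 0 ↔ (QuotientGroup.mk (⟨g, hg⟩ : ↥(lcs G k)) :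
      ↥(lcs G k) ⧸ (lcs G (k + 1)).subgroupOf (lcs G k)) = 1 := Iff.rfl
  rw [h1, QuotientGroup.eq_one_iff, Subgroup.mem_subgroupOf]

lemma cls_eq {k : ℕ} {g h : G} (hg : g ∈ lcs G k) (hh : h ∈ lcs G k) :
    cls k g hg = cls k h hh ↔
      (QuotientGroup.mk g : G ⧸ lcs G (k + 1)) = QuotientGroup.mk h := by
  have h1 : cls k g hg = cls k h hh ↔ (QuotientGroup.mk (⟨g, hg⟩ : ↥(lcs G k)) :
      ↥(lcs G k) ⧸ (lcs G (k + 1)).subgroupOf (lcs G k)) = QuotientGroup.mk ⟨h, hh⟩ := Iff.rfl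
  rw [h1, QuotientGroup.eq, QuotientGroup.eq, Subgroup.mem_subgroupOf]
  rfl

lemma gr_add_comm {k : ℕ} (x y : Gr G k) : x + y = y + x := by
  obtain ⟨g, hg, rfl⟩ := cls_surj x
  obtain ⟨h, hh, rfl⟩ := cls_surj y
  rw [← cls_mul hg hh, ← cls_mul hh hg, cls_eq, QuotientGroup.mk_mul, QuotientGroup.mk_mul]
  exact (mk_commute hg h).eq

instance grAddCommGroup (k : ℕ) : AddCommGroup (Gr G k) :=
  { grAddGroup G k with add_comm := gr_add_comm }

/-- transport along an equality of degrees inside the direct sum -/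
lemma of_cls_congr {k l : ℕ} (hkl : k = l) {g h : G} (hg : g ∈ lcs G k) (hh : h ∈ lcs G l)
    (e : g = h) : DirectSum.of (Gr G) k (cls k g hg) = DirectSum.of (Gr G) l (cls l h hh) := by
  subst hkl; subst e; rfl

lemma quo_eq {k : ℕ} {g h : ↥(lcs G k)}
    (e : (QuotientGroup.leftRel ((lcs G (k + 1)).subgroupOf (lcs G k))) g h) : quo g = quo h :=
  Quotient.sound e

/-- A function out of a graded piece from a function on the group. -/
def liftFun {A : Type*} {k : ℕ} (f : ↥(lcs G k) → A)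
    (hf : ∀ g h : ↥(lcs G k), quo g = quo h → f g = f h) (x : Gr G k) : A :=
  Quotient.liftOn (Additive.toMul x : Quo G k) f (fun g h e => hf g h (quo_eq e))

lemma liftFun_cls {A : Type*} {k : ℕ} (f : ↥(lcs G k) → A)
    (hf : ∀ g h : ↥(lcs G k), quo g = quo h → f g = f h) (g : G) (hg : g ∈ lcs G k) :
    liftFun f hf (cls k g hg) = f ⟨g, hg⟩ := rfl

lemma lift_compat {A : Type*} [AddCommGroup A] {k : ℕ} {f : ↥(lcs G k) → A}
    (hmul : ∀ g h, f (g * h) = f g + f h)
    (hker : ∀ g : ↥(lcs G k), g.1 ∈ lcs G (k + 1) → f g = 0) (g h : ↥(lcs G k))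
    (e : quo g = quo h) : f g = f h := by
  have h1 : (QuotientGroup.mk g : ↥(lcs G k) ⧸ (lcs G (k + 1)).subgroupOf (lcs G k)) =
    QuotientGroup.mk h := e
  rw [QuotientGroup.eq, Subgroup.mem_subgroupOf] at h1
  have h2 := hker _ h1
  have h3 := hmul g (g⁻¹ * h)
  rw [mul_inv_cancel_left, h2, add_zero] at h3
  exact h3.symm

lemma lift_add {A : Type*} [AddCommGroup A] {k : ℕ} {f : ↥(lcs G k) → A}
    (hmul : ∀ g h, f (g * h) = f g + f h)
    (hf : ∀ g h : ↥(lcs G k), quo g = quo h → f g = f h) (x y : Gr G k) :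
    liftFun f hf (x + y) = liftFun f hf x + liftFun f hf y := by
  obtain ⟨g, hg, rfl⟩ := cls_surj x
  obtain ⟨h, hh, rfl⟩ := cls_surj y
  rw [← cls_mul hg hh, liftFun_cls, liftFun_cls, liftFun_cls]
  exact hmul ⟨g, hg⟩ ⟨h, hh⟩

/-- An additive map out of a graded piece from a map on the group. -/
def liftGr {A : Type*} [AddCommGroup A] {k : ℕ} (f : ↥(lcs G k) → A)
    (hmul : ∀ g h, f (g * h) = f g + f h)
    (hker : ∀ g : ↥(lcs G k), g.1 ∈ lcs G (k + 1) → f g = 0) : Gr G k →+ A :=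
  AddMonoidHom.mk' (liftFun f (lift_compat hmul hker)) (lift_add hmul _)

lemma liftGr_cls {A : Type*} [AddCommGroup A] {k : ℕ} (f : ↥(lcs G k) → A)
    (hmul : ∀ g h, f (g * h) = f g + f h)
    (hker : ∀ g : ↥(lcs G k), g.1 ∈ lcs G (k + 1) → f g = 0) (g : G) (hg : g ∈ lcs G k) :
    liftGr f hmul hker (cls k g hg) = f ⟨g, hg⟩ := rfl

/-- The class of the commutator `[a, b]` of `a ∈ Γ_{i+1} G` and `b ∈ Γ_{j+1} G`. -/
def clsComm {i j : ℕ} (a : ↥(lcs G i)) (b : ↥(lcs G j)) : Gr G (i + j + 1) :=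
  cls (i + j + 1) ⁅a.1, b.1⁆ (comm_mem a.2 b.2)

lemma clsComm_mul_right {i j : ℕ} (a : ↥(lcs G i)) (b c : ↥(lcs G j)) :
    clsComm a (b * c) = clsComm a b + clsComm a c := by
  unfold clsComm
  rw [← cls_mul, cls_eq, QuotientGroup.mk_mul]
  exact comm_mul_right_mod (comm_mem a.2 c.2)

lemma clsComm_mul_left {i j : ℕ} (a b : ↥(lcs G i)) (c : ↥(lcs G j)) :
    clsComm (a * b) c = clsComm a c + clsComm b c := by
  unfold clsComm
  rw [← cls_mul, cls_eq, QuotientGroup.mk_mul]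
  exact comm_mul_left_mod (comm_mem b.2 c.2)

lemma clsComm_right_zero {i j : ℕ} (a : ↥(lcs G i)) (b : ↥(lcs G j)) (hb : b.1 ∈ lcs G (j + 1)) :
    clsComm a b = 0 := by
  unfold clsComm
  rw [cls_eq_zero]
  exact comm_mem_of a.2 hb (by omega)

lemma clsComm_left_zero {i j : ℕ} (a : ↥(lcs G i)) (b : ↥(lcs G j)) (ha : a.1 ∈ lcs G (i + 1)) :
    clsComm a b = 0 := by
  unfold clsComm
  rw [cls_eq_zero]
  exact comm_mem_of ha b.2 (by omega)

/-- The additive map `[a, ·]`. -/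
def brRight (i j : ℕ) (a : ↥(lcs G i)) : Gr G j →+ Gr G (i + j + 1) :=
  liftGr (clsComm a) (clsComm_mul_right a) (clsComm_right_zero a)

lemma brRight_mul (i j : ℕ) (a b : ↥(lcs G i)) :
    brRight i j (a * b) = brRight i j a + brRight i j b := by
  ext z
  obtain ⟨c, hc, rfl⟩ := cls_surj z
  exact clsComm_mul_left a b ⟨c, hc⟩

lemma brRight_zero (i j : ℕ) (a : ↥(lcs G i)) (ha : a.1 ∈ lcs G (i + 1)) :
    brRight i j a = 0 := by
  ext z
  obtain ⟨c, hc, rfl⟩ := cls_surj z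
  exact clsComm_left_zero a ⟨c, hc⟩ ha

/-- The bracket `Γ_{i+1}/Γ_{i+2} × Γ_{j+1}/Γ_{j+2} → Γ_{i+j+2}/Γ_{i+j+3}` induced by the
group commutator. -/
def br (i j : ℕ) : Gr G i →+ Gr G j →+ Gr G (i + j + 1) :=
  liftGr (brRight i j) (brRight_mul i j) (brRight_zero i j)

lemma br_cls {i j : ℕ} {a b : G} (ha : a ∈ lcs G i) (hb : b ∈ lcs G j) :
    br i j (cls i a ha) (cls j b hb) = cls (i + j + 1) ⁅a, b⁆ (comm_mem ha hb) := rfl

end pieces

section ring
variable (G : Type u) [Group G]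

/-- The graded abelian group `E_0^*(G) = ⨁_{k ≥ 1} Γ_k G / Γ_{k+1} G`. -/
abbrev E0 : Type u := ⨁ k, Gr G k

variable {G}

/-- The inclusion of a homogeneous component. -/
noncomputable def hom (k : ℕ) : Gr G k →+ E0 G := DirectSum.of (Gr G) k

/-- The projection to a homogeneous component. -/
noncomputable def comp (k : ℕ) : E0 G →+ Gr G k := DFinsupp.evalAddMonoidHom k

lemma comp_hom_same (k : ℕ) (x : Gr G k) : comp k (hom k x) = x := DirectSum.of_eq_same k x

/-- An additive map out of `E_0^*(G)` given on the homogeneous components. -/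
noncomputable def lift0 {A : Type*} [AddCommMonoid A] (φ : ∀ i, Gr G i →+ A) : E0 G →+ A :=
  DirectSum.toAddMonoid φ

lemma lift0_hom {A : Type*} [AddCommMonoid A] (φ : ∀ i, Gr G i →+ A) (i : ℕ) (x : Gr G i) :
    lift0 φ (hom i x) = φ i x := DirectSum.toAddMonoid_of φ i x

lemma hom_cls_congr {k l : ℕ} (hkl : k = l) {g h : G} (hg : g ∈ lcs G k) (hh : h ∈ lcs G l)
    (e : g = h) : hom k (cls k g hg) = hom l (cls l h hh) := of_cls_congr hkl hg hh e

/-- The bracket of a homogeneous element with an arbitrary element. -/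
noncomputable def brkLeft (i : ℕ) (a : Gr G i) : E0 G →+ E0 G :=
  lift0 fun j => (hom (i + j + 1)).comp (br i j a)

lemma E0_add_hom_ext {A : Type*} [AddCommMonoid A] {f g : E0 G →+ A}
    (h : ∀ k x, f (hom k x) = g (hom k x)) : f = g :=
  DirectSum.addHom_ext h

lemma brkLeft_add (i : ℕ) (a b : Gr G i) : brkLeft i (a + b) = brkLeft i a + brkLeft i b := by
  apply E0_add_hom_ext
  intro k x
  rw [AddMonoidHom.add_apply]
  unfold brkLeft
  rw [lift0_hom, lift0_hom, lift0_hom, AddMonoidHom.comp_apply, AddMonoidHom.comp_apply,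
    AddMonoidHom.comp_apply, map_add, AddMonoidHom.add_apply, map_add]

/-- The bracket as a biadditive map. -/
noncomputable def brk : E0 G →+ E0 G →+ E0 G :=
  lift0 fun i => AddMonoidHom.mk' (brkLeft i) (brkLeft_add i)

lemma brk_hom {i j : ℕ} (x : Gr G i) (y : Gr G j) :
    brk (hom i x) (hom j y) = hom (i + j + 1) (br i j x y) := by
  unfold brk
  rw [lift0_hom]
  show brkLeft i x (hom j y) = _
  unfold brkLeft
  rw [lift0_hom]
  rfl

noncomputable instance e0Bracket : Bracket (E0 G) (E0 G) := ⟨fun x y => brk x y⟩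

lemma bracket_def (x y : E0 G) : ⁅x, y⁆ = brk x y := rfl

/-- The bracket of homogeneous elements is given by the group commutator. -/
lemma bracket_cls {i j : ℕ} {a b : G} (ha : a ∈ lcs G i) (hb : b ∈ lcs G j) :
    ⁅hom i (cls i a ha), hom j (cls j b hb)⁆ = hom (i + j + 1) (cls (i + j + 1) ⁅a, b⁆ (comm_mem ha hb)) := by
  rw [bracket_def, brk_hom, br_cls]

lemma E0_induction {P : E0 G → Prop} (h0 : P 0) (h1 : ∀ k g hg, P (hom k (cls k g hg)))
    (h2 : ∀ x y, P x → P y → P (x + y)) (x : E0 G) : P x := by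
  refine DirectSum.induction_on (β := Gr G) (motive := P) x h0 ?_ h2
  intro k y
  obtain ⟨g, hg, rfl⟩ := cls_surj y
  exact h1 k g hg

lemma skew (x y : E0 G) : ⁅x, y⁆ = -⁅y, x⁆ := by
  simp only [bracket_def]
  induction x using E0_induction with
  | h0 => simp
  | h2 x x' hx hx' => simp only [map_add, AddMonoidHom.add_apply, hx, hx']; abel
  | h1 i a ha =>
    induction y using E0_induction with
    | h0 => simp
    | h2 x x' hx hx' => simp only [map_add, AddMonoidHom.add_apply, hx, hx']; abel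
    | h1 j b hb =>
      rw [brk_hom, brk_hom, br_cls, br_cls, ← map_neg, ← cls_inv]
      exact hom_cls_congr (by omega) _ _ (commutatorElement_inv b a).symm

lemma self (x : E0 G) : ⁅x, x⁆ = 0 := by
  induction x using E0_induction with
  | h0 => simp [bracket_def]
  | h2 x y hx hy =>
    have h := skew x y
    simp only [bracket_def] at *
    simp only [map_add, AddMonoidHom.add_apply, hx, hy, h]
    abel
  | h1 i a ha =>
    rw [bracket_cls, hom_cls_congr rfl (comm_mem ha ha) (one_mem _) (commutatorElement_self a),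
      cls_one, map_zero]

lemma jac (x y z : E0 G) : ⁅x, ⁅y, z⁆⁆ = ⁅⁅x, y⁆, z⁆ + ⁅y, ⁅x, z⁆⁆ := by
  simp only [bracket_def]
  induction x using E0_induction with
  | h0 => simp
  | h2 x x' hx hx' => simp only [map_add, AddMonoidHom.add_apply, hx, hx']; abel
  | h1 i a ha =>
    induction y using E0_induction with
    | h0 => simp
    | h2 x x' hx hx' => simp only [map_add, AddMonoidHom.add_apply, hx, hx']; abel
    | h1 j b hb =>
      induction z using E0_induction with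
      | h0 => simp
      | h2 x x' hx hx' => simp only [map_add, hx, hx']; abel
      | h1 k c hc =>
        simp only [brk_hom, br_cls]
        have e1 : hom (i + (j + k + 1) + 1) (cls (i + (j + k + 1) + 1) ⁅a, ⁅b, c⁆⁆
            (comm_mem ha (comm_mem hb hc))) = hom (i + j + k + 2) (cls (i + j + k + 2) ⁅a, ⁅b, c⁆⁆
            (comm_mem_of ha (comm_mem hb hc) (by omega))) := hom_cls_congr (by omega) _ _ rfl
        have e2 : hom (i + j + 1 + k + 1) (cls (i + j + 1 + k + 1) ⁅⁅a, b⁆, c⁆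
            (comm_mem (comm_mem ha hb) hc)) = hom (i + j + k + 2) (cls (i + j + k + 2) ⁅⁅a, b⁆, c⁆
            (comm_mem_of (comm_mem ha hb) hc (by omega))) := hom_cls_congr (by omega) _ _ rfl
        have e3 : hom (j + (i + k + 1) + 1) (cls (j + (i + k + 1) + 1) ⁅b, ⁅a, c⁆⁆
            (comm_mem hb (comm_mem ha hc))) = hom (i + j + k + 2) (cls (i + j + k + 2) ⁅b, ⁅a, c⁆⁆
            (comm_mem_of hb (comm_mem ha hc) (by omega))) := hom_cls_congr (by omega) _ _ rfl
        rw [e1, e2, e3, ← map_add, ← cls_mul]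
        congr 1
        rw [cls_eq, QuotientGroup.mk_mul]
        exact jacobi_mod ha hb hc

lemma bracket_add_left (x y z : E0 G) : ⁅x + y, z⁆ = ⁅x, z⁆ + ⁅y, z⁆ := by simp [bracket_def]

lemma bracket_add_right (x y z : E0 G) : ⁅x, y + z⁆ = ⁅x, y⁆ + ⁅x, z⁆ := by simp [bracket_def]

/-- The graded Lie ring `E_0^*(G)`. -/
noncomputable instance e0LieRing : LieRing (E0 G) where
  add_lie := bracket_add_left
  lie_add := bracket_add_right
  lie_self := self
  leibniz_lie := jac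

end ring

end Pool.Agent.H777R3.GrLie
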