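import Pool.Agent.H777R3.FreeLie

/-!
# The group `IA_n` and truncated Magnus expansions
-/

set_option autoImplicit false
set_option linter.unusedSectionVars false

namespace Pool.Agent.H777R3.IAut

open scoped commutatorElement

/-- `IA_n`: the automorphisms of the free group of rank `n` that induce the identity on its
abelianization. -/
def IA (n : ℕ) : Subgroup (MulAut (FreeGroup (Fin n))) where
  carrier := {φ | ∀ w, Abelianization.of (φ w) = Abelianization.of w}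
  mul_mem' := by
    intro φ ψ hφ hψ w
    rw [MulAut.mul_apply, hφ, hψ]
  one_mem' := fun _ => rfl
  inv_mem' := by
    intro φ hφ w
    have h := hφ (φ⁻¹ w)
    rw [MulAut.apply_inv_self] at h
    exact h.symm

section magnus
variable {ι : Type} [Fintype ι] [DecidableEq ι]

/-- Truncated Magnus expansions `1 + a1 + a2 + a3`. -/
@[ext] structure Mg (ι : Type) : Type where
  a1 : ι → ℤ
  a2 : ι → ι → ℤ
  a3 : ι → ι → ι → ℤ

namespace Mg

instance : Mul (Mg ι) := ⟨fun a b =>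
  ⟨fun i => a.a1 i + b.a1 i, fun i j => a.a2 i j + b.a2 i j + a.a1 i * b.a1 j,
   fun i j k => a.a3 i j k + b.a3 i j k + a.a2 i j * b.a1 k + a.a1 i * b.a2 j k⟩⟩

instance : One (Mg ι) := ⟨⟨fun _ => 0, fun _ _ => 0, fun _ _ _ => 0⟩⟩

instance : Inv (Mg ι) := ⟨fun a =>
  ⟨fun i => - a.a1 i, fun i j => - a.a2 i j + a.a1 i * a.a1 j,
   fun i j k => - a.a3 i j k + a.a2 i j * a.a1 k + a.a1 i * a.a2 j k - a.a1 i * a.a1 j * a.a1 k⟩⟩

lemma mul1 (a b : Mg ι) (i : ι) : (a * b).a1 i = a.a1 i + b.a1 i := rfl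
lemma mul2 (a b : Mg ι) (i j : ι) : (a * b).a2 i j = a.a2 i j + b.a2 i j + a.a1 i * b.a1 j := rfl
lemma mul3 (a b : Mg ι) (i j k : ι) : (a * b).a3 i j k =
  a.a3 i j k + b.a3 i j k + a.a2 i j * b.a1 k + a.a1 i * b.a2 j k := rfl
lemma one1 (i : ι) : (1 : Mg ι).a1 i = 0 := rfl
lemma one2 (i j : ι) : (1 : Mg ι).a2 i j = 0 := rfl
lemma one3 (i j k : ι) : (1 : Mg ι).a3 i j k = 0 := rfl
lemma inv1 (a : Mg ι) (i : ι) : (a⁻¹).a1 i = - a.a1 i := rfl
lemma inv2 (a : Mg ι) (i j : ι) : (a⁻¹).a2 i j = - a.a2 i j + a.a1 i * a.a1 j := rfl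
lemma inv3 (a : Mg ι) (i j k : ι) : (a⁻¹).a3 i j k =
  - a.a3 i j k + a.a2 i j * a.a1 k + a.a1 i * a.a2 j k - a.a1 i * a.a1 j * a.a1 k := rfl

instance : Group (Mg ι) where
  mul_assoc a b c := by
    ext <;> simp only [mul1, mul2, mul3] <;> ring
  one_mul a := by
    ext <;> simp only [mul1, mul2, mul3, one1, one2, one3] <;> ring
  mul_one a := by
    ext <;> simp only [mul1, mul2, mul3, one1, one2, one3] <;> ring
  inv_mul_cancel a := by
    ext <;> simp only [mul1, mul2, mul3, one1, one2, one3, inv1, inv2, inv3] <;> ring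

/-- The substitution `X_l ↦ X_l + c2 l + c3 l`. -/
def subst (c2 : ι → ι → ι → ℤ) (c3 : ι → ι → ι → ι → ℤ) : Mg ι →* Mg ι where
  toFun a := ⟨a.a1, fun i j => a.a2 i j + ∑ l, a.a1 l * c2 l i j,
    fun i j k => a.a3 i j k + ∑ l, a.a1 l * c3 l i j k + ∑ l, a.a2 l k * c2 l i j
      + ∑ l, a.a2 i l * c2 l j k⟩
  map_one' := by
    ext <;> simp [one1, one2, one3]
  map_mul' a b := by
    ext i j k
    · rfl
    · simp only [mul1, mul2, add_mul, Finset.sum_add_distrib]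
      ring
    · simp only [mul1, mul2, mul3, add_mul, Finset.sum_add_distrib, mul_add, Finset.sum_mul,
        Finset.mul_sum]
      have h1 : ∀ l, a.a1 l * b.a1 k * c2 l i j = a.a1 l * c2 l i j * b.a1 k := fun l => by ring
      have h2 : ∀ l, a.a1 i * b.a1 l * c2 l j k = a.a1 i * (b.a1 l * c2 l j k) := fun l => by ring
      simp only [h1, h2]
      ring

/-- The generator `1 + X_i`. -/
def X (i : ι) : Mg ι := ⟨Pi.single i 1, fun _ _ => 0, fun _ _ _ => 0⟩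

/-- The truncated Magnus expansion of a word. -/
def μ : FreeGroup ι →* Mg ι := FreeGroup.lift X

lemma μ_of (i : ι) : μ (FreeGroup.of i) = X i := by simp [μ]

/-- The shuffle relation in degree two. -/
lemma shuffle (w : FreeGroup ι) (i j : ι) : (μ w).a2 i j + (μ w).a2 j i =
    (μ w).a1 i * (μ w).a1 j - if i = j then (μ w).a1 i else 0 := by
  induction w using FreeGroup.induction_on with
  | C1 => simp [one1, one2]
  | of l =>
    rw [μ_of]
    simp only [X, Pi.single_apply]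
    by_cases h : i = j
    · subst h; by_cases h' : i = l <;> simp [h']
    · by_cases h1 : i = l
      · have h2 : j ≠ l := fun h3 => h (h1.trans h3.symm)
        have h3 : l ≠ j := fun h4 => h2 h4.symm
        simp [h1, h2, h3]
      · simp [h1, h]
  | inv_of l hl =>
    rw [map_inv, inv2, inv2, inv1, inv1]
    by_cases h : i = j
    · subst h; simp only [if_true] at hl ⊢; linarith
    · simp only [h, if_false] at hl ⊢; linarith
  | mul u v hu hv =>
    rw [map_mul, mul2, mul2, mul1, mul1]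
    by_cases h : i = j
    · subst h; simp only [if_true] at hu hv ⊢; linarith
    · simp only [h, if_false] at hu hv ⊢; linarith

/-- The linear part only depends on the class in the abelianization. -/
lemma a1_congr {u v : FreeGroup ι} (h : Abelianization.of u = Abelianization.of v) (i : ι) :
    (μ u).a1 i = (μ v).a1 i := by
  let f : FreeGroup ι →* Multiplicative ℤ :=
    { toFun := fun w => Multiplicative.ofAdd ((μ w).a1 i)
      map_one' := by rw [map_one]; rfl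
      map_mul' := fun a b => by rw [map_mul]; rfl }
  have h1 : ∀ w, f w = Abelianization.lift f (Abelianization.of w) := fun w => by
    rw [Abelianization.lift_apply_of]
  have h2 : f u = f v := by rw [h1, h1, h]
  exact Multiplicative.ofAdd.injective h2

end Mg
end magnus

section coeff
open Mg
variable {n : ℕ}

/-- second order Magnus coefficients of the images of the generators -/
def c2 (φ : IA n) (m i j : Fin n) : ℤ := (μ (φ.1 (FreeGroup.of m))).a2 i j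

/-- third order Magnus coefficients of the images of the generators -/
def c3 (φ : IA n) (m i j k : Fin n) : ℤ := (μ (φ.1 (FreeGroup.of m))).a3 i j k

lemma c1 (φ : IA n) (m i : Fin n) : (μ (φ.1 (FreeGroup.of m))).a1 i = (Pi.single m 1 : Fin n → ℤ) i := by
  rw [a1_congr (φ.2 (FreeGroup.of m)), μ_of]
  rfl

lemma μ_apply (φ : IA n) (w : FreeGroup (Fin n)) :
    μ (φ.1 w) = subst (c2 φ) (c3 φ) (μ w) := by
  have h : (μ : FreeGroup (Fin n) →* Mg (Fin n)).comp (φ.1 : FreeGroup (Fin n) →* FreeGroup (Fin n)) =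
      (subst (c2 φ) (c3 φ)).comp μ := by
    apply FreeGroup.ext_hom
    intro m
    show μ (φ.1 (FreeGroup.of m)) = subst (c2 φ) (c3 φ) (μ (FreeGroup.of m))
    rw [μ_of]
    ext i j k
    · rw [c1]; rfl
    · show c2 φ m i j = 0 + ∑ l, (Pi.single m 1 : Fin n → ℤ) l * c2 φ l i j
      simp [Pi.single_apply]
    · show c3 φ m i j k = 0 + ∑ l, (Pi.single m 1 : Fin n → ℤ) l * c3 φ l i j k
        + ∑ l, 0 * c2 φ l i j + ∑ l, 0 * c2 φ l j k
      simp [Pi.single_apply]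
  exact DFunLike.congr_fun h w

lemma c2_mul (φ ψ : IA n) (m i j : Fin n) : c2 (φ * ψ) m i j = c2 φ m i j + c2 ψ m i j := by
  unfold c2
  rw [Subgroup.coe_mul, MulAut.mul_apply, μ_apply]
  show (μ (ψ.1 (FreeGroup.of m))).a2 i j + ∑ l, (μ (ψ.1 (FreeGroup.of m))).a1 l * c2 φ l i j = _
  simp only [c1, Pi.single_apply, ite_mul, one_mul, zero_mul, Finset.sum_ite_eq', Finset.mem_univ,
    if_true, c2]
  ring

lemma c3_mul (φ ψ : IA n) (m i j k : Fin n) : c3 (φ * ψ) m i j k = c3 φ m i j k + c3 ψ m i j k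
    + (∑ l, c2 ψ m l k * c2 φ l i j + ∑ l, c2 ψ m i l * c2 φ l j k) := by
  unfold c3
  rw [Subgroup.coe_mul, MulAut.mul_apply, μ_apply]
  show (μ (ψ.1 (FreeGroup.of m))).a3 i j k + ∑ l, (μ (ψ.1 (FreeGroup.of m))).a1 l * c3 φ l i j k
    + ∑ l, c2 ψ m l k * c2 φ l i j + ∑ l, c2 ψ m i l * c2 φ l j k = _
  simp only [c1, Pi.single_apply, ite_mul, one_mul, zero_mul, Finset.sum_ite_eq', Finset.mem_univ,
    if_true, c3]
  ring

lemma c2_skew (φ : IA n) (m i j : Fin n) : c2 φ m j i = - c2 φ m i j := by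
  have h := shuffle (φ.1 (FreeGroup.of m)) i j
  rw [c1, c1] at h
  have h0 : (Pi.single m 1 : Fin n → ℤ) i * (Pi.single m 1 : Fin n → ℤ) j -
      (if i = j then (Pi.single m 1 : Fin n → ℤ) i else 0) = 0 := by
    simp only [Pi.single_apply]
    by_cases h1 : i = j
    · subst h1; by_cases h2 : i = m <;> simp [h2]
    · by_cases h2 : i = m
      · have h3 : j ≠ m := fun h4 => h1 (h2.trans h4.symm)
        simp [h1, h3]
      · simp [h1, h2]
  rw [h0] at h
  unfold c2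
  omega

lemma c2_diag (φ : IA n) (m i : Fin n) : c2 φ m i i = 0 := by
  have := c2_skew φ m i i; omega

end coeff

section three
open Mg

/-- the additive functions -/
def α (φ : IA 3) : ℤ := c2 φ 0 0 1 - c2 φ 2 2 1
def β (φ : IA 3) : ℤ := c2 φ 0 0 2 - c2 φ 1 1 2
def γ (φ : IA 3) : ℤ := c2 φ 0 1 2

def zz (φ : IA 3) : ℤ := - (c3 φ 0 0 2 1 + c3 φ 0 2 0 1 - c3 φ 1 1 2 1 - c3 φ 1 2 1 1)
def ww (φ : IA 3) : ℤ := - c3 φ 0 2 2 1

def Bz (φ ψ : IA 3) : ℤ :=
  - ((∑ l, c2 ψ 0 l 1 * c2 φ l 0 2 + ∑ l, c2 ψ 0 0 l * c2 φ l 2 1)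
    + (∑ l, c2 ψ 0 l 1 * c2 φ l 2 0 + ∑ l, c2 ψ 0 2 l * c2 φ l 0 1)
    - (∑ l, c2 ψ 1 l 1 * c2 φ l 1 2 + ∑ l, c2 ψ 1 1 l * c2 φ l 2 1)
    - (∑ l, c2 ψ 1 l 1 * c2 φ l 2 1 + ∑ l, c2 ψ 1 2 l * c2 φ l 1 1))

def Bw (φ ψ : IA 3) : ℤ :=
  - (∑ l, c2 ψ 0 l 1 * c2 φ l 2 2 + ∑ l, c2 ψ 0 2 l * c2 φ l 2 1)

lemma α_mul (φ ψ : IA 3) : α (φ * ψ) = α φ + α ψ := by
  unfold α; simp only [c2_mul]; ring
lemma β_mul (φ ψ : IA 3) : β (φ * ψ) = β φ + β ψ := by
  unfold β; simp only [c2_mul]; ring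
lemma γ_mul (φ ψ : IA 3) : γ (φ * ψ) = γ φ + γ ψ := by
  unfold γ; simp only [c2_mul]

open Pool.Agent.H777R3.FreeLie

lemma quad_z : Quad zz Bz where
  add φ ψ := by unfold zz Bz; simp only [c3_mul]; ring
  left φ φ' ψ := by unfold Bz; simp only [c2_mul, Fin.sum_univ_three]; ring
  right φ ψ ψ' := by unfold Bz; simp only [c2_mul, Fin.sum_univ_three]; ring

lemma quad_w : Quad ww Bw where
  add φ ψ := by unfold ww Bw; simp only [c3_mul]; ring
  left φ φ' ψ := by unfold Bw; simp only [c2_mul, Fin.sum_univ_three]; ring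
  right φ ψ ψ' := by unfold Bw; simp only [c2_mul, Fin.sum_univ_three]; ring

lemma hz (φ ψ : IA 3) : Bz φ ψ - Bz ψ φ = α φ * β ψ - α ψ * β φ := by
  have s10 : ∀ (θ : IA 3) (m : Fin 3), c2 θ m 1 0 = - c2 θ m 0 1 := fun θ m => c2_skew θ m 0 1
  have s20 : ∀ (θ : IA 3) (m : Fin 3), c2 θ m 2 0 = - c2 θ m 0 2 := fun θ m => c2_skew θ m 0 2
  have s21 : ∀ (θ : IA 3) (m : Fin 3), c2 θ m 2 1 = - c2 θ m 1 2 := fun θ m => c2_skew θ m 1 2
  unfold Bz α β
  simp only [Fin.sum_univ_three, c2_diag, s10, s20, s21]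
  ring

lemma hw (φ ψ : IA 3) : Bw φ ψ - Bw ψ φ = β φ * γ ψ - β ψ * γ φ := by
  have s10 : ∀ (θ : IA 3) (m : Fin 3), c2 θ m 1 0 = - c2 θ m 0 1 := fun θ m => c2_skew θ m 0 1
  have s20 : ∀ (θ : IA 3) (m : Fin 3), c2 θ m 2 0 = - c2 θ m 0 2 := fun θ m => c2_skew θ m 0 2
  have s21 : ∀ (θ : IA 3) (m : Fin 3), c2 θ m 2 1 = - c2 θ m 1 2 := fun θ m => c2_skew θ m 1 2
  unfold Bw β γ
  simp only [Fin.sum_univ_three, c2_diag, s10, s20, s21]
  ring

/-- An endomorphism of the free group given by the images of the generators. -/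
def endo (f : Fin 3 → FreeGroup (Fin 3)) : FreeGroup (Fin 3) →* FreeGroup (Fin 3) := FreeGroup.lift f

abbrev x : Fin 3 → FreeGroup (Fin 3) := FreeGroup.of

/-- A mutually inverse pair of endomorphisms that are trivial on the abelianization. -/
def mkIA (f g : Fin 3 → FreeGroup (Fin 3)) (hfg : ∀ i, endo f (g i) = x i)
    (hgf : ∀ i, endo g (f i) = x i)
    (hab : ∀ i, Abelianization.of (f i) = Abelianization.of (x i)) : IA 3 :=
  ⟨MonoidHom.toMulEquiv (endo f) (endo g)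
    (FreeGroup.ext_hom _ _ (fun i => by
      show endo g (endo f (x i)) = x i
      rw [show endo f (x i) = f i from FreeGroup.lift_apply_of]; exact hgf i))
    (FreeGroup.ext_hom _ _ (fun i => by
      show endo f (endo g (x i)) = x i
      rw [show endo g (x i) = g i from FreeGroup.lift_apply_of]; exact hfg i)),
  fun w => by
    have h : (Abelianization.of).comp (endo f) = (Abelianization.of : FreeGroup (Fin 3) →* _) :=
      FreeGroup.ext_hom _ _ (fun i => by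
        show Abelianization.of (endo f (x i)) = _
        rw [show endo f (x i) = f i from FreeGroup.lift_apply_of]; exact hab i)
    exact DFunLike.congr_fun h w⟩

lemma mkIA_of (f g : Fin 3 → FreeGroup (Fin 3)) (hfg hgf hab) (i : Fin 3) :
    (mkIA f g hfg hgf hab).1 (x i) = f i := FreeGroup.lift_apply_of

lemma ab_comm (u v : FreeGroup (Fin 3)) : Abelianization.of (u * v) = Abelianization.of (v * u) := by
  rw [map_mul, map_mul, mul_comm]

/-- `x_0 ↦ x_1⁻¹ x_0 x_1` -/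
def A : IA 3 := mkIA ![(x 1)⁻¹ * x 0 * x 1, x 1, x 2] ![x 1 * x 0 * (x 1)⁻¹, x 1, x 2]
  (fun i => by fin_cases i <;> simp [endo, mul_assoc])
  (fun i => by fin_cases i <;> simp [endo, mul_assoc])
  (fun i => by fin_cases i <;> simp)

/-- `x_0 ↦ x_2⁻¹ x_0 x_2` -/
def B : IA 3 := mkIA ![(x 2)⁻¹ * x 0 * x 2, x 1, x 2] ![x 2 * x 0 * (x 2)⁻¹, x 1, x 2]
  (fun i => by fin_cases i <;> simp [endo, mul_assoc])
  (fun i => by fin_cases i <;> simp [endo, mul_assoc])
  (fun i => by fin_cases i <;> simp)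

/-- `x_0 ↦ x_0 [x_1, x_2]` -/
def C : IA 3 := mkIA ![x 0 * (x 1 * x 2 * (x 1)⁻¹ * (x 2)⁻¹), x 1, x 2]
  ![x 0 * (x 2 * x 1 * (x 2)⁻¹ * (x 1)⁻¹), x 1, x 2]
  (fun i => by fin_cases i <;> simp [endo, mul_assoc])
  (fun i => by fin_cases i <;> simp [endo, mul_assoc])
  (fun i => by fin_cases i <;> simp)

lemma A0 : A.1 (x 0) = (x 1)⁻¹ * x 0 * x 1 := mkIA_of _ _ _ _ _ 0
lemma A1 : A.1 (x 1) = x 1 := mkIA_of _ _ _ _ _ 1
lemma A2 : A.1 (x 2) = x 2 := mkIA_of _ _ _ _ _ 2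
lemma B0 : B.1 (x 0) = (x 2)⁻¹ * x 0 * x 2 := mkIA_of _ _ _ _ _ 0
lemma B1 : B.1 (x 1) = x 1 := mkIA_of _ _ _ _ _ 1
lemma B2 : B.1 (x 2) = x 2 := mkIA_of _ _ _ _ _ 2
lemma C0 : C.1 (x 0) = x 0 * (x 1 * x 2 * (x 1)⁻¹ * (x 2)⁻¹) := mkIA_of _ _ _ _ _ 0
lemma C1 : C.1 (x 1) = x 1 := mkIA_of _ _ _ _ _ 1
lemma C2 : C.1 (x 2) = x 2 := mkIA_of _ _ _ _ _ 2

/-- `x_0 ↦ [x_1, x_2]⁻¹ x_0 [x_1, x_2]` -/
def D : IA 3 := mkIA
  ![(x 2 * x 1 * (x 2)⁻¹ * (x 1)⁻¹) * x 0 * (x 1 * x 2 * (x 1)⁻¹ * (x 2)⁻¹), x 1, x 2]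
  ![(x 1 * x 2 * (x 1)⁻¹ * (x 2)⁻¹) * x 0 * (x 2 * x 1 * (x 2)⁻¹ * (x 1)⁻¹), x 1, x 2]
  (fun i => by fin_cases i <;> simp [endo, mul_assoc])
  (fun i => by fin_cases i <;> simp [endo, mul_assoc])
  (fun i => by fin_cases i <;> simp)

lemma D0 : D.1 (x 0) =
    (x 2 * x 1 * (x 2)⁻¹ * (x 1)⁻¹) * x 0 * (x 1 * x 2 * (x 1)⁻¹ * (x 2)⁻¹) := mkIA_of _ _ _ _ _ 0
lemma D1 : D.1 (x 1) = x 1 := mkIA_of _ _ _ _ _ 1
lemma D2 : D.1 (x 2) = x 2 := mkIA_of _ _ _ _ _ 2

lemma IA_ext {φ ψ : IA 3} (h : ∀ i, φ.1 (x i) = ψ.1 (x i)) : φ = ψ := by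
  apply Subtype.ext
  apply MulEquiv.toMonoidHom_injective
  exact FreeGroup.ext_hom _ _ h

lemma AB : A * B = D * (B * A) := by
  apply IA_ext
  intro i
  simp only [Subgroup.coe_mul, MulAut.mul_apply]
  fin_cases i
  · simp only [Fin.zero_eta, A0, B0, map_mul, map_inv, A1, A2, B1, B2, D0, D1, D2]
    group
  · simp only [Fin.mk_one, A1, B1, D1]
  · simp only [Fin.reduceFinMk, A2, B2, D2]

lemma DC : D * C = C * D := by
  apply IA_ext
  intro i
  simp only [Subgroup.coe_mul, MulAut.mul_apply]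
  fin_cases i
  · simp only [Fin.zero_eta, C0, map_mul, map_inv, C1, C2, D0, D1, D2]
    group
  · simp only [Fin.mk_one, C1, D1]
  · simp only [Fin.reduceFinMk, C2, D2]

lemma comm_one : ⁅⁅A, B⁆, C⁆ = 1 := by
  have h : ⁅A, B⁆ = D := by
    rw [commutatorElement_def, AB]; group
  rw [h, commutatorElement_eq_one_iff_mul_comm]
  exact DC

lemma c2_eq (φ : IA 3) (m i j : Fin 3) : c2 φ m i j = (μ (φ.1 (x m))).a2 i j := rfl

lemma valA : α A = 1 ∧ β A = 0 ∧ γ A = 0 := by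
  simp only [α, β, γ, c2_eq, A0, A1, A2, map_mul, map_inv, μ_of, mul1, mul2, inv1, inv2, X,
    Pi.single_apply]
  decide

lemma valB : α B = 0 ∧ β B = 1 ∧ γ B = 0 := by
  simp only [α, β, γ, c2_eq, B0, B1, B2, map_mul, map_inv, μ_of, mul1, mul2, inv1, inv2, X,
    Pi.single_apply]
  decide

lemma valC : α C = 0 ∧ β C = 0 ∧ γ C = 1 := by
  simp only [α, β, γ, c2_eq, C0, C1, C2, map_mul, map_inv, μ_of, mul1, mul2, inv1, inv2, X,
    Pi.single_apply]
  decide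

/-- **The graded Lie ring of the lower central series of `IA_3` is not quadratically presented.** -/
theorem main : ¬ FreeModQuadratic (IA 3) :=
  not_quadratic α_mul β_mul γ_mul quad_z quad_w hz hw valA valB valC comm_one

end three

end Pool.Agent.H777R3.IAut
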